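import Mathlib
import Pool.Agent.Lib.MP_230119_an.LA8
import Pool.Agent.Lib.MP_230119_an.EX.S06
import Pool.Agent.Lib.MP_230119_an.SG10

/-!
# The sharp endpoint Stein-Tomas inequality on the circle
-/

set_option autoImplicit false

open MeasureTheory Set
open scoped ENNReal

namespace Pool.Agent.Results.MP_230119_an.Sharp

/-- Arc length on the unit circle, in terms of the angle `θ ∈ (0, 2π]`. -/
noncomputable def arc : Measure ℝ := volume.restrict (Ioc 0 (2 * Real.pi))

/-- The Fourier extension of `f σ`, where `σ` is arc length on the unit circle and `f` is a function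
of the angle `θ ∈ (0, 2π]`. -/
noncomputable def extension (f : ℝ → ℂ) (x : ℝ × ℝ) : ℂ :=
  ∫ θ, f θ * Complex.exp (-(Complex.I * (((x.1 * Real.cos θ + x.2 * Real.sin θ : ℝ)) : ℂ))) ∂arc

private lemma sharp_arc_univ : arc Set.univ = ENNReal.ofReal (2 * Real.pi) := by
  unfold arc
  rw [Measure.restrict_apply_univ, Real.volume_Ioc, sub_zero]

private lemma sharp_sqrt : ENNReal.ofReal (2 * Real.pi) ^ (1 / 2 : ℝ) =
    ENNReal.ofReal (Real.sqrt (2 * Real.pi)) := by
  rw [ENNReal.ofReal_rpow_of_nonneg (by positivity) (by norm_num), Real.sqrt_eq_rpow]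

private lemma sharp_e6 (g : ℝ × ℝ → ℂ) :
    eLpNorm g 6 volume = (∫⁻ x : ℝ × ℝ, ‖g x‖ₑ ^ 6) ^ (1 / 6 : ℝ) := by
  rw [eLpNorm_eq_lintegral_rpow_enorm_toReal (by norm_num) (by norm_num)]
  norm_num

private lemma sharp_e2 (f : ℝ → ℂ) :
    eLpNorm f 2 arc = (∫⁻ θ in Ioc 0 (2 * Real.pi), ‖f θ‖ₑ ^ 2) ^ (1 / 2 : ℝ) := by
  rw [eLpNorm_eq_lintegral_rpow_enorm_toReal (by norm_num) (by norm_num)]
  unfold arc
  norm_num

private lemma sharp_ext (f : ℝ → ℂ) : extension f = Pool.Agent.Lib.MP_230119_an.ex f := by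
  funext x
  unfold extension arc Pool.Agent.Lib.MP_230119_an.ex Pool.Agent.Lib.MP_230119_an.tr
    Pool.Agent.Lib.MP_230119_an.ph Pool.Agent.Lib.MP_230119_an.dt Pool.Agent.Lib.MP_230119_an.mc
    Pool.Agent.Lib.MP_230119_an.om
  rfl

private lemma sharp_one_memLp : MemLp (fun _ : ℝ => (1 : ℂ)) 2 Pool.Agent.Lib.MP_230119_an.mc := by
  have : IsFiniteMeasure Pool.Agent.Lib.MP_230119_an.mc := by
    unfold Pool.Agent.Lib.MP_230119_an.mc
    infer_instance
  exact memLp_const 1

private lemma sharp_cont : Continuous (extension fun _ => 1) := by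
  rw [sharp_ext]
  exact Pool.Agent.Lib.MP_230119_an.continuous_ex
    (Pool.Agent.Lib.MP_230119_an.integrable_of_memLp sharp_one_memLp)

/-- The `L⁶(ℝ²)` norm of the extension of the constant `1` is finite and positive, and for every
complex-valued `f ∈ L²` of the circle the `L⁶` norm of the extension of `f` is at most that of the
constant `1`, times the `L²` norm of `f`, divided by `√(2π)`, the `L²` norm of the constant `1`. -/
theorem result :
    eLpNorm (extension fun _ => 1) 6 volume ≠ 0 ∧ eLpNorm (extension fun _ => 1) 6 volume ≠ ⊤ ∧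
    eLpNorm (fun _ : ℝ => (1 : ℂ)) 2 arc = ENNReal.ofReal (Real.sqrt (2 * Real.pi)) ∧
    ∀ f : ℝ → ℂ, MemLp f 2 arc →
      eLpNorm (extension f) 6 volume ≤
        eLpNorm (extension fun _ => 1) 6 volume / ENNReal.ofReal (Real.sqrt (2 * Real.pi)) *
          eLpNorm f 2 arc := by
  have h2pi : (0 : ℝ) < 2 * Real.pi := by positivity
  refine ⟨?_, ?_, ?_, ?_⟩
  · intro h
    rw [eLpNorm_eq_zero_iff sharp_cont.aestronglyMeasurable (by norm_num)] at h
    have h1 : (extension fun _ => 1) = fun _ => (0 : ℂ) :=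
      (Continuous.ae_eq_iff_eq volume sharp_cont continuous_const).1 h
    have h2 := congrFun h1 (0, 0)
    unfold extension at h2
    simp only [zero_mul, add_zero, Complex.ofReal_zero, mul_zero, neg_zero, Complex.exp_zero,
      mul_one, integral_const] at h2
    rw [Measure.real, sharp_arc_univ, ENNReal.toReal_ofReal h2pi.le] at h2
    simp at h2
  · obtain ⟨C, _, hC⟩ := Pool.Agent.Lib.MP_230119_an.crude
    have h1 := hC _ sharp_one_memLp
    unfold Pool.Agent.Lib.MP_230119_an.J Pool.Agent.Lib.MP_230119_an.N2 at h1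
    rw [← sharp_ext] at h1
    rw [sharp_e6]
    refine ENNReal.rpow_ne_top_of_nonneg (by norm_num) (ne_top_of_le_ne_top ?_ h1)
    refine ENNReal.mul_ne_top ENNReal.ofReal_ne_top (ENNReal.pow_ne_top ?_)
    have h2 : ∫⁻ θ, ‖(1 : ℂ)‖ₑ ^ 2 ∂Pool.Agent.Lib.MP_230119_an.mc = arc Set.univ := by
      unfold Pool.Agent.Lib.MP_230119_an.mc arc
      simp
    rw [h2, sharp_arc_univ]
    exact ENNReal.ofReal_ne_top
  · rw [sharp_e2, ← sharp_sqrt]
    simp
  · intro f hf
    have h1 := Pool.Agent.Lib.MP_230119_an.LA.S04055_of_star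
      (fun h => Pool.Agent.Lib.MP_230119_an.EX.star h) f hf
    rw [sharp_e6, sharp_e6, sharp_e2]
    have e1 : ∀ x : ℝ × ℝ, extension f x = ∫ θ in Ioc 0 (2 * Real.pi),
        f θ * Complex.exp (-(Complex.I * (((x.1 * Real.cos θ + x.2 * Real.sin θ : ℝ)) : ℂ))) :=
      fun _ => rfl
    have e2 : ∀ x : ℝ × ℝ, extension (fun _ => 1) x = ∫ θ in Ioc 0 (2 * Real.pi),
        Complex.exp (-(Complex.I * (((x.1 * Real.cos θ + x.2 * Real.sin θ : ℝ)) : ℂ))) := by
      intro x
      unfold extension arc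
      simp only [one_mul]
    simp only [← e1, ← e2] at h1
    have h3 := ENNReal.rpow_le_rpow h1 (show (0 : ℝ) ≤ 1 / 6 by norm_num)
    refine h3.trans (le_of_eq ?_)
    rw [ENNReal.mul_rpow_of_nonneg _ _ (by norm_num), ← ENNReal.rpow_natCast_mul,
      show ((3 : ℕ) : ℝ) * (1 / 6) = 1 / 2 by norm_num,
      ENNReal.div_rpow_of_nonneg _ _ (by norm_num), sharp_sqrt, ← mul_div_assoc, ENNReal.mul_div_right_comm]

end Pool.Agent.Results.MP_230119_an.Sharp
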